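import Pool.Agent.Q283.FT.Stm2
import Pool.Agent.Q153.JQ.ADJ0

/-! Project FT (helper283), job ADJ (helper277): the operators of several curves. -/

set_option autoImplicit false

namespace Pool.Agent.Q277.FT

open Pool.Agent.Q283.FT

theorem adj (hIRR : Pool.Agent.Q283.FT.S_IRR) (hISO : Pool.Agent.Q283.FT.S_ISO) :
    Pool.Agent.Q283.FT.S_ADJ := by
  intro f κ _ t₀ c w 𝓛 hinj hne
  have h := Pool.Agent.Q153.JQ.t_ADJ0 (Fin f) κ (fun _ => U2)
    (fun k φ => (opT (c k) w φ : Module.End (ZMod 2) U2))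
    (fun k => hIRR f (c k) w (hinj k))
    (fun k l hkl hg => hne k l hkl (hISO f (c k) (c l) w hg))
  unfold Adj
  rw [← top_le_iff, ← h]
  refine Algebra.adjoin_mono ?_
  rintro _ ⟨φ, rfl⟩
  exact ⟨⟨φ, rfl⟩, rfl⟩

end Pool.Agent.Q277.FT
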