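import Pool.Agent.Q283.FT.Stm2
import Pool.Agent.Q283.FT.A.PAR0
import Pool.Agent.Q283.FT.A.ID

/-! Project FT (helper283), job TPA (helper277): the parity of the dimension of the space of the solutions. -/

set_option autoImplicit false

namespace Pool.Agent.Q277.FT

open Pool.Agent.Q283.FT Pool.Agent.Q7.LK Module

lemma Mt_symm {f k : ℕ} (τ : Tab 2 f k) (i j : Fin k) :
    Mt (fun _ _ => 0) τ i j = Mt (fun _ _ => 0) τ j i := by
  unfold Mt
  rcases lt_trichotomy i j with h | h | h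
  · rw [dif_pos h, dif_neg (lt_asymm h), dif_pos h, add_zero]
  · subst h
    rfl
  · rw [dif_neg (lt_asymm h), dif_pos h, dif_pos h, add_zero]

theorem tpa : Pool.Agent.Q283.FT.S_TPA := by
  intro f D ρ hOk k τ
  refine ⟨finrank (ZMod 2) (Sel D (NT τ) τ.1), ?_, ?_⟩
  · unfold nSel
    rw [Module.natCard_eq_pow_finrank (K := ZMod 2), Nat.card_zmod]
  · refine A.t_PAR0 A.t_ID (Fin f) U2 (Fin k) D ρ hOk (NT τ) τ.1 fun p q _ => ?_
    rw [sgz_eq, zero_mul, add_zero]
    unfold NT
    exact Mt_symm τ p q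

end Pool.Agent.Q277.FT
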